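import Mathlib
import Pool.Agent.Lib.MP_1d7b2e_al.Hedge

set_option autoImplicit false

namespace Pool.Agent.Results.MP_1d7b2e_al.RankThree

/-- An infinite quotient of `Aut(F_3)`, with an element of infinite order, in which the standard
copy of `Aut(F_2)` has finite image. -/
theorem result :
    ∃ (G : Type) (_ : Group G) (φ : MulAut (FreeGroup (Fin 3)) →* G),
      Function.Surjective φ ∧ Infinite G ∧ (∃ g : G, ¬ IsOfFinOrder g) ∧
      (φ '' {σ | σ (FreeGroup.of 2) = FreeGroup.of 2 ∧ ∃ τ : MulAut (FreeGroup (Fin 2)),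
        ∀ w, σ (FreeGroup.map Fin.castSucc w) = FreeGroup.map Fin.castSucc (τ w)}).Finite := by
  obtain ⟨G, _, φ, h1, h2, g, hg⟩ := Pool.Agent.Lib.MP_1d7b2e_al.main2
  refine ⟨G, inferInstance, φ, h1, ?_, ⟨g, hg⟩, h2.subset (Set.image_mono ?_)⟩
  · by_contra h
    have : Finite G := not_infinite_iff_finite.1 h
    exact hg (isOfFinOrder_of_finite g)
  · rintro σ ⟨hz, τ, hτ⟩
    refine ⟨hz, fun a => ?_⟩
    rw [Pool.Agent.Lib.MP_1d7b2e_al.mem_A0, Pool.Agent.Lib.MP_1d7b2e_al.mem_A0]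
    constructor
    · rintro ⟨w, rfl⟩
      exact ⟨τ w, (hτ w).symm⟩
    · rintro ⟨w, hw⟩
      refine ⟨τ⁻¹ w, σ.injective ?_⟩
      rw [hτ, ← hw]
      simp

end Pool.Agent.Results.MP_1d7b2e_al.RankThree
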